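import Pool.Agent.H91.NV.LTargets

/-!
# Row L_WDN of the board `nvk_modules`: the weights at the small primes are admissible
-/

set_option autoImplicit false
set_option linter.unusedSectionVars false

open MeasureTheory Set Filter NumberField NumberField.InfinitePlace
open Pool.Agent.H65.CM4 Pool.Agent.H61.NVK Pool.Agent.H89.NV Pool.Agent.H91.NV
open scoped Real

namespace Pool.Agent.H63.NVK_WDN

section

variable {k : Type} [Field k] [NumberField k]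

theorem dvi_spec {A P : Ideal (𝓞 k)} (h : P ∣ A) : A = P * dvi A P := by
  unfold dvi
  obtain ⟨J, hJ⟩ := h
  have h' : ∃ J, A = P * J := ⟨J, hJ⟩
  rw [dif_pos h']
  exact h'.choose_spec

theorem le_dvi {A P : Ideal (𝓞 k)} (h : P ∣ A) : A ≤ dvi A P := by
  conv_lhs => rw [dvi_spec h]
  exact Ideal.mul_le_right

theorem qN_le {R : Finset (PrI k)} {P : PrI k} (hP : P ∈ R) : qN R ≤ P.1 ^ 2 := by
  unfold qN idS
  refine Ideal.mul_le_right.trans ?_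
  exact Ideal.pow_right_mono (Ideal.le_of_dvd (Finset.dvd_prod_of_mem (fun P : PrI k => P.1) hP)) 2

theorem sq_le (I : Ideal (𝓞 k)) : I ^ 2 ≤ I := Ideal.pow_le_self two_ne_zero

theorem mul_le_r (I J : Ideal (𝓞 k)) : I * J ≤ J := Ideal.mul_le_right

open Classical in
/-- the weights depend only on the numbers of roots and the condition -/
theorem congr_w (f : Ideal (𝓞 k)) (R n₁ n₂ : Finset (PrI k)) (hn₁ : n₁ ⊆ R) (hn₂ : n₂ ⊆ R)
    (e A : Ideal (𝓞 k)) (b c b' c' : 𝓞 k)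
    (hg : good f R (4 * c' - b' ^ 2) ↔ good f R (4 * c - b ^ 2))
    (h1 : ∀ P ∈ R, nr f P.1 ⊤ b' c' = nr f P.1 ⊤ b c)
    (h2 : ∀ P ∈ R, nr f P.1 A b' c' = nr f P.1 A b c)
    (h3 : ∀ P ∈ R, P.1 ∣ A → nr f P.1 (dvi A P.1) b' c' = nr f P.1 (dvi A P.1) b c)
    (h4 : ∀ P ∈ R, nr f (P.1 ^ 2) A b' c' = nr f (P.1 ^ 2) A b c) :
    wN f R n₁ n₂ e A b' c' = wN f R n₁ n₂ e A b c ∧
      wF f R n₁ e A b' c' = wF f R n₁ e A b c := by
  have han : ∀ n : Finset (PrI k), an f R n b' c' = an f R n b c := by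
    intro n
    unfold an chi
    refine Finset.prod_congr rfl fun P hP => ?_
    rw [h1 P hP]
  have hN : Nw f n₁ n₂ e A b' c' = Nw f n₁ n₂ e A b c := by
    unfold Nw
    refine Finset.prod_congr rfl fun P hP => ?_
    have hPR : P ∈ R := by
      rcases Finset.mem_union.1 hP with h | h
      · exact hn₁ h
      · exact hn₂ h
    have e1 : N1 f P.1 e A b' c' = N1 f P.1 e A b c := by
      unfold N1
      rw [h2 P hPR]
    have e2 : N2 f P.1 e A b' c' = N2 f P.1 e A b c := by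
      unfold N2
      rw [h2 P hPR, h4 P hPR]
      by_cases h : P.1 ∣ A
      · rw [h3 P hPR h]
      · have : ¬ (P.1 ∣ A ∧ P.1 ∣ e) := fun h' => h h'.1
        rw [if_neg this, if_neg this]
    rw [e1, e2]
  unfold wN wF
  rw [han, han, hN]
  by_cases h : good f R (4 * c - b ^ 2)
  · rw [if_pos h, if_pos (hg.2 h), if_pos h, if_pos (hg.2 h)]
    exact ⟨rfl, rfl⟩
  · rw [if_neg h, if_neg (fun h' => h (hg.1 h')), if_neg h, if_neg (fun h' => h (hg.1 h'))]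
    exact ⟨rfl, rfl⟩

variable [IsTotallyReal k]

/-- the condition in terms of the coefficients -/
theorem good_iff (hGOD : T_GOD k) {f : Ideal (𝓞 k)} (hf : f ≠ ⊥) (R : Finset (PrI k)) {b c : 𝓞 k}
    (hb : b ∈ f) (hc : c ∈ f ^ 2) : good f R (4 * c - b ^ 2) ↔
      ∀ P ∈ R, ¬ ∃ s ∈ f, b + 2 * s ∈ P.1 * f ∧ s ^ 2 + b * s + c ∈ P.1 ^ 2 * f ^ 2 := by
  unfold good
  constructor
  · intro h P hP h'
    exact h.2 P hP (((hGOD f P b c hf hb hc).2).2 h')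
  · intro h
    refine ⟨?_, fun P hP h' => h P hP (((hGOD f P b c hf hb hc).2).1 h')⟩
    by_cases hR : R.Nonempty
    · obtain ⟨P, hP⟩ := hR
      exact (hGOD f P b c hf hb hc).1
    · refine ⟨b, hb, ?_⟩
      have : b ^ 2 + (4 * c - b ^ 2) = 4 * c := by ring
      rw [this]
      unfold ni
      exact Ideal.mul_mem_mul (Ideal.mem_span_singleton_self _) hc

theorem perB_aux (hNRI : T_NRI k) (hGOD : T_GOD k) {f : Ideal (𝓞 k)} (hf : f ≠ ⊥)
    (R n₁ n₂ : Finset (PrI k)) (hn₁ : n₁ ⊆ R) (hn₂ : n₂ ⊆ R)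
    (e A : Ideal (𝓞 k)) (b c : 𝓞 k) (hb : b ∈ f) (hc : c ∈ A * f ^ 2) (x : 𝓞 k)
    (hx : x ∈ qN R * f) :
    wN f R n₁ n₂ e A (b + x) c = wN f R n₁ n₂ e A b c ∧
      wF f R n₁ e A (b + x) c = wF f R n₁ e A b c := by
  have hc2 : c ∈ f ^ 2 := mul_le_r _ _ hc
  have hxf : x ∈ f := mul_le_r _ _ hx
  have hx2 : ∀ P ∈ R, x ∈ P.1 ^ 2 * f := fun P hP => Ideal.mul_mono_left (qN_le hP) hx
  have hx1 : ∀ P ∈ R, x ∈ P.1 * f := fun P hP => Ideal.mul_mono_left (sq_le P.1) (hx2 P hP)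
  refine congr_w f R n₁ n₂ hn₁ hn₂ e A b c (b + x) c ?_ ?_ ?_ ?_ ?_
  · rw [good_iff hGOD hf R hb hc2, good_iff hGOD hf R (f.add_mem hb hxf) hc2]
    refine forall₂_congr fun P hP => not_congr ?_
    refine exists_congr fun s => and_congr_right fun hs => ?_
    have e1 : b + x + 2 * s = (b + 2 * s) + x := by ring
    have e2 : s ^ 2 + (b + x) * s + c = (s ^ 2 + b * s + c) + x * s := by ring
    have hxs : x * s ∈ P.1 ^ 2 * f ^ 2 := by
      have := Ideal.mul_mem_mul (hx2 P hP) hs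
      rwa [mul_assoc, ← pow_two] at this
    rw [e1, e2, (P.1 * f).add_mem_iff_left (hx1 P hP), (P.1 ^ 2 * f ^ 2).add_mem_iff_left hxs]
  · intro P hP
    exact (hNRI f P.1 ⊤ b c hf P.2.2).2.2.2.1 x (hx1 P hP)
  · intro P hP
    exact (hNRI f P.1 A b c hf P.2.2).2.2.2.1 x (hx1 P hP)
  · intro P hP _
    exact (hNRI f P.1 (dvi A P.1) b c hf P.2.2).2.2.2.1 x (hx1 P hP)
  · intro P hP
    exact (hNRI f (P.1 ^ 2) A b c hf (pow_ne_zero 2 P.2.2)).2.2.2.1 x (hx2 P hP)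

theorem perC_aux (hNRI : T_NRI k) (hGOD : T_GOD k) {f : Ideal (𝓞 k)} (hf : f ≠ ⊥)
    (R n₁ n₂ : Finset (PrI k)) (hn₁ : n₁ ⊆ R) (hn₂ : n₂ ⊆ R)
    (e A : Ideal (𝓞 k)) (b c : 𝓞 k) (hb : b ∈ f) (hc : c ∈ A * f ^ 2) (x : 𝓞 k)
    (hx : x ∈ qN R * (A * f ^ 2)) :
    wN f R n₁ n₂ e A b (c + x) = wN f R n₁ n₂ e A b c ∧
      wF f R n₁ e A b (c + x) = wF f R n₁ e A b c := by
  have hc2 : c ∈ f ^ 2 := mul_le_r _ _ hc
  have hxf : x ∈ f ^ 2 := mul_le_r _ _ (mul_le_r _ _ hx)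
  have hx2 : ∀ P ∈ R, x ∈ P.1 ^ 2 * (A * f ^ 2) := fun P hP =>
    Ideal.mul_mono_left (qN_le hP) hx
  have hx1 : ∀ P ∈ R, x ∈ P.1 * (A * f ^ 2) := fun P hP =>
    Ideal.mul_mono_left (sq_le P.1) (hx2 P hP)
  refine congr_w f R n₁ n₂ hn₁ hn₂ e A b c b (c + x) ?_ ?_ ?_ ?_ ?_
  · rw [good_iff hGOD hf R hb hc2, good_iff hGOD hf R hb (Ideal.add_mem _ hc2 hxf)]
    refine forall₂_congr fun P hP => not_congr ?_
    refine exists_congr fun s => and_congr_right fun hs => ?_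
    have e2 : s ^ 2 + b * s + (c + x) = (s ^ 2 + b * s + c) + x := by ring
    have hxs : x ∈ P.1 ^ 2 * f ^ 2 := Ideal.mul_mono_right (mul_le_r _ _) (hx2 P hP)
    rw [e2, (P.1 ^ 2 * f ^ 2).add_mem_iff_left hxs]
  · intro P hP
    exact (hNRI f P.1 ⊤ b c hf P.2.2).2.2.2.2 x
      (Ideal.mul_mono_right (Ideal.mul_mono_left le_top) (hx1 P hP))
  · intro P hP
    exact (hNRI f P.1 A b c hf P.2.2).2.2.2.2 x (hx1 P hP)
  · intro P hP hA
    exact (hNRI f P.1 (dvi A P.1) b c hf P.2.2).2.2.2.2 x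
      (Ideal.mul_mono_right (Ideal.mul_mono_left (le_dvi hA)) (hx1 P hP))
  · intro P hP
    exact (hNRI f (P.1 ^ 2) A b c hf (pow_ne_zero 2 P.2.2)).2.2.2.2 x (hx2 P hP)

theorem inv_aux (hNRI : T_NRI k) {f : Ideal (𝓞 k)} (hf : f ≠ ⊥)
    (R n₁ n₂ : Finset (PrI k)) (hn₁ : n₁ ⊆ R) (hn₂ : n₂ ⊆ R)
    (e A : Ideal (𝓞 k)) (b c : 𝓞 k) (hb : b ∈ f) (j : 𝓞 k) (hj : j ∈ A * f) :
    wN f R n₁ n₂ e A (b + 2 * j) (j ^ 2 + b * j + c) = wN f R n₁ n₂ e A b c ∧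
      wF f R n₁ e A (b + 2 * j) (j ^ 2 + b * j + c) = wF f R n₁ e A b c := by
  refine congr_w f R n₁ n₂ hn₁ hn₂ e A b c _ _ ?_ ?_ ?_ ?_ ?_
  · have : 4 * (j ^ 2 + b * j + c) - (b + 2 * j) ^ 2 = 4 * c - b ^ 2 := by ring
    rw [this]
  · intro P hP
    exact (hNRI f P.1 ⊤ b c hf P.2.2).2.2.1 hb j (Ideal.mul_mono_left le_top hj)
  · intro P hP
    exact (hNRI f P.1 A b c hf P.2.2).2.2.1 hb j hj
  · intro P hP hA
    exact (hNRI f P.1 (dvi A P.1) b c hf P.2.2).2.2.1 hb j (Ideal.mul_mono_left (le_dvi hA) hj)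
  · intro P hP
    exact (hNRI f (P.1 ^ 2) A b c hf (pow_ne_zero 2 P.2.2)).2.2.1 hb j hj

open Classical in
theorem an_le (hNRI : T_NRI k) (hIDL : T_IDL k) {f : Ideal (𝓞 k)} (hf : f ≠ ⊥)
    (R n : Finset (PrI k)) (b c : 𝓞 k) : |an f R n b c| ≤ 2 ^ R.card := by
  unfold an
  rw [Finset.abs_prod]
  have h : ∏ P ∈ R, |if P ∈ n then (-1 : ℝ) else 1 + chi f P b c / np P| ≤
      ∏ P ∈ R, (2 : ℝ) := by
    refine Finset.prod_le_prod (fun P _ => abs_nonneg _) fun P hP => ?_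
    split_ifs with h
    · rw [abs_neg, abs_one]; norm_num
    · have h2 : 2 ≤ np P := hIDL.2.2.2.2.2.1 P
      have h1 : (nr f P.1 ⊤ b c : ℝ) ≤ np P := (hNRI f P.1 ⊤ b c hf P.2.2).1
      have h0 : (0 : ℝ) ≤ (nr f P.1 ⊤ b c : ℝ) := Nat.cast_nonneg _
      have hp : 0 < np P := by linarith
      unfold chi
      rw [abs_le]
      constructor
      · have : -1 ≤ ((nr f P.1 ⊤ b c : ℝ) - 1) / np P := by
          rw [le_div_iff₀ hp]; linarith
        linarith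
      · have : ((nr f P.1 ⊤ b c : ℝ) - 1) / np P ≤ 1 := by
          rw [div_le_iff₀ hp]; linarith
        linarith
  rwa [Finset.prod_const] at h

open Classical in
theorem Nw_le (hNRI : T_NRI k) (hIDL : T_IDL k) {f : Ideal (𝓞 k)} (hf : f ≠ ⊥)
    (R n₁ n₂ : Finset (PrI k)) (hn₁ : n₁ ⊆ R) (hn₂ : n₂ ⊆ R) (e A : Ideal (𝓞 k)) (b c : 𝓞 k) :
    (Nw f n₁ n₂ e A b c : ℝ) ≤ ∏ P ∈ R, (2 + 2 * np P + np P ^ 2) := by
  have hp : ∀ P : PrI k, 2 ≤ np P := hIDL.2.2.2.2.2.1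
  have hsub : n₁ ∪ n₂ ⊆ R := Finset.union_subset hn₁ hn₂
  have hN : ∀ P : PrI k, ∀ A' : Ideal (𝓞 k), (nr f P.1 A' b c : ℝ) ≤ np P := fun P A' =>
    (hNRI f P.1 A' b c hf P.2.2).1
  have hN' : ∀ P : PrI k, (nr f (P.1 ^ 2) A b c : ℝ) ≤ np P ^ 2 := by
    intro P
    have h1 := (hNRI f (P.1 ^ 2) A b c hf (pow_ne_zero 2 P.2.2)).1
    have h2 : nm (P.1 ^ 2) = np P ^ 2 := by
      rw [pow_two, hIDL.2.2.2.1, pow_two]; rfl
    rwa [h2] at h1
  have h0 : ∀ (I A' : Ideal (𝓞 k)), (0 : ℝ) ≤ (nr f I A' b c : ℝ) := fun _ _ => Nat.cast_nonneg _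
  calc (Nw f n₁ n₂ e A b c : ℝ) ≤ ∏ P ∈ n₁ ∪ n₂, (2 + 2 * np P + np P ^ 2) := by
        unfold Nw
        rw [Nat.cast_prod]
        refine Finset.prod_le_prod (fun P _ => Nat.cast_nonneg _) fun P _ => ?_
        have hP := hp P
        have hsq : 0 ≤ np P ^ 2 := sq_nonneg _
        split_ifs with h
        · unfold N2
          have a1 := hN P A
          have a2 := hN P (dvi A P.1)
          have a3 := hN' P
          push_cast
          split_ifs <;> linarith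
        · unfold N1
          have a1 := hN P A
          push_cast
          split_ifs <;> linarith
    _ ≤ ∏ P ∈ R, (2 + 2 * np P + np P ^ 2) := by
        refine Finset.prod_le_prod_of_subset_of_one_le hsub ?_ ?_
        · intro P _
          have := hp P
          positivity
        · intro P _ _
          have := hp P
          nlinarith [sq_nonneg (np P)]

end

theorem pf_WDN (k : Type) [Field k] [NumberField k] [IsTotallyReal k] (hNRI : T_NRI k)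
    (hGOD : T_GOD k) (hIDL : T_IDL k) : T_WDN k := by
  classical
  intro f R hf _
  have hp : ∀ P : PrI k, 2 ≤ np P := hIDL.2.2.2.2.2.1
  have hB : 1 ≤ ∏ P ∈ R, (2 + 2 * np P + np P ^ 2) := by
    refine Finset.one_le_prod ?_
    intro P _
    have := hp P
    nlinarith [sq_nonneg (np P)]
  refine ⟨(2 ^ R.card * 2 ^ R.card) * ∏ P ∈ R, (2 + 2 * np P + np P ^ 2), fun n₁ n₂ h₁ h₂ => ?_⟩
  have h2 : (1 : ℝ) ≤ 2 ^ R.card := one_le_pow₀ (by norm_num)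
  have hK : (0 : ℝ) ≤ (2 ^ R.card * 2 ^ R.card) * ∏ P ∈ R, (2 + 2 * np P + np P ^ 2) := by
    positivity
  refine ⟨⟨?_, ?_, ?_, ?_⟩, ⟨?_, ?_, ?_, ?_⟩⟩
  · intro e A b c hb hc x hx
    exact (perB_aux hNRI hGOD hf R n₁ n₂ h₁ h₂ e A b c hb hc x hx).1
  · intro e A b c hb hc x hx
    exact (perC_aux hNRI hGOD hf R n₁ n₂ h₁ h₂ e A b c hb hc x hx).1
  · intro e A b c hb hc j hj
    exact (inv_aux hNRI hf R n₁ n₂ h₁ h₂ e A b c hb j hj).1
  · intro e A b c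
    unfold wN
    split_ifs
    · rw [abs_mul, abs_mul]
      refine mul_le_mul (mul_le_mul (an_le hNRI hIDL hf R n₁ b c) (an_le hNRI hIDL hf R n₂ b c)
        (abs_nonneg _) (by positivity)) ?_ (abs_nonneg _) (by positivity)
      rw [abs_of_nonneg (Nat.cast_nonneg _)]
      exact Nw_le hNRI hIDL hf R n₁ n₂ h₁ h₂ e A b c
    · rw [abs_zero]; exact hK
  · intro e A b c hb hc x hx
    exact (perB_aux hNRI hGOD hf R n₁ n₂ h₁ h₂ e A b c hb hc x hx).2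
  · intro e A b c hb hc x hx
    exact (perC_aux hNRI hGOD hf R n₁ n₂ h₁ h₂ e A b c hb hc x hx).2
  · intro e A b c hb hc j hj
    exact (inv_aux hNRI hf R n₁ n₂ h₁ h₂ e A b c hb j hj).2
  · intro e A b c
    unfold wF
    split_ifs
    · refine (an_le hNRI hIDL hf R n₁ b c).trans ?_
      have h3 : (1 : ℝ) * 1 ≤ 2 ^ R.card * ∏ P ∈ R, (2 + 2 * np P + np P ^ 2) :=
        mul_le_mul h2 hB (by norm_num) (by positivity)
      calc (2 : ℝ) ^ R.card = 2 ^ R.card * (1 * 1) := by ring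
        _ ≤ 2 ^ R.card * (2 ^ R.card * ∏ P ∈ R, (2 + 2 * np P + np P ^ 2)) :=
            mul_le_mul_of_nonneg_left h3 (by positivity)
        _ = _ := by ring
    · rw [abs_zero]; exact hK

end Pool.Agent.H63.NVK_WDN
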